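import Pool.Agent.N343.TC.Stm

/-! Project TC (helper343): the inverse of a conformal map is holomorphic. -/

set_option autoImplicit false

open Set Filter Topology Metric Complex

namespace Pool.Agent.N572.TC.INV

open Pool.Agent.N343.TC

theorem main : S_INV := by
  intro f r hf
  obtain ⟨hr, hd, hinj, hne⟩ := hf
  have hs : ∀ w ∈ ball (0 : ℂ) r, HasStrictDerivAt f (deriv f w) w := by
    intro w hw
    exact (hd.analyticAt (isOpen_ball.mem_nhds hw)).hasStrictDerivAt
  have hmap : ∀ w ∈ ball (0 : ℂ) r, map f (𝓝 w) = 𝓝 (f w) :=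
    fun w hw => (hs w hw).map_nhds_eq (hne w hw)
  have hopen : IsOpen (f '' ball 0 r) := by
    rw [isOpen_iff_mem_nhds]
    rintro _ ⟨w, hw, rfl⟩
    rw [← hmap w hw]
    exact image_mem_map (isOpen_ball.mem_nhds hw)
  obtain ⟨g, hg⟩ : ∃ g : ℂ → ℂ, ∀ w ∈ ball (0 : ℂ) r, g (f w) = w :=
    ⟨Function.invFunOn f (ball 0 r), fun w hw => hinj.leftInvOn_invFunOn hw⟩
  have hgc : ∀ w ∈ ball (0 : ℂ) r, ContinuousAt g (f w) := by
    intro w hw
    unfold ContinuousAt
    rw [hg w hw, ← hmap w hw, tendsto_map'_iff]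
    have h1 : g ∘ f =ᶠ[𝓝 w] id := by
      filter_upwards [isOpen_ball.mem_nhds hw] with z hz
      exact hg z hz
    exact tendsto_id.congr' h1.symm
  have hgd : ∀ w ∈ ball (0 : ℂ) r, HasDerivAt g (deriv f w)⁻¹ (f w) := by
    intro w hw
    refine HasDerivAt.of_local_left_inverse (f := f) (hgc w hw) ?_ (hne w hw) ?_
    · rw [hg w hw]
      exact (hs w hw).hasDerivAt
    · rw [← hmap w hw, eventually_map]
      filter_upwards [isOpen_ball.mem_nhds hw] with z hz
      rw [hg z hz]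
  refine ⟨hopen, g, ?_, fun w hw => ⟨hg w hw, (hgd w hw).deriv⟩⟩
  rintro _ ⟨w, hw, rfl⟩
  exact (hgd w hw).differentiableAt.differentiableWithinAt

end Pool.Agent.N572.TC.INV
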